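import Pool.Agent.Helper24.TF.StF

set_option autoImplicit false

namespace Pool.Agent.Helper31.TF

open NumberField IsDedekindDomain Polynomial Filter Topology
open Pool.Agent.Helper95.TT Pool.Agent.Helper24.TF
open scoped Classical

theorem hF1 (hA7 : StA7) : StF1 := by
  intro k _ _ m P hP
  obtain ⟨d, hd⟩ := MvPolynomial.ne_zero_iff.1 hP
  refine ⟨(P.totalDegree : ℝ), {v | P.coeff d ∈ v.asIdeal}, by positivity, (hA7 k).1 _ hd,
    fun v hv => ?_⟩
  have hfin : Finite (𝓞 k ⧸ v.asIdeal) := Ideal.finiteQuotientOfFreeOfNeBot _ v.ne_bot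
  have : Fintype (Kv v) := Fintype.ofFinite _
  have : v.asIdeal.IsPrime := v.isPrime
  have : IsDomain (Kv v) := inferInstance
  set Pb : MvPolynomial (Fin m) (Kv v) := MvPolynomial.map (Ideal.Quotient.mk v.asIdeal) P with hPbd
  have hPb : Pb ≠ 0 := by
    rw [MvPolynomial.ne_zero_iff]
    refine ⟨d, ?_⟩
    rw [hPbd, MvPolynomial.coeff_map]
    intro h
    exact hv (Ideal.Quotient.eq_zero_iff_mem.1 h)
  have hq : q v = Fintype.card (Kv v) := by
    unfold q
    rw [Ideal.absNorm_apply, Submodule.cardQuot_apply, Nat.card_eq_fintype_card]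
  have hev : ∀ y : Fin m → Kv v, val v y P = MvPolynomial.eval y Pb := by
    intro y
    rw [hPbd, MvPolynomial.eval_map]
    rfl
  have hqpos : 0 < q v := by
    rw [hq]
    exact Fintype.card_pos
  have hsz := MvPolynomial.schwartz_zippel_totalDegree hPb (Finset.univ : Finset (Kv v))
  have hcard : Nat.card {y : Fin m → Kv v // val v y P = 0} =
      (Finset.filter (fun f => MvPolynomial.eval f Pb = 0)
        (Fintype.piFinset (fun _ : Fin m => (Finset.univ : Finset (Kv v))))).card := by
    rw [Nat.card_eq_fintype_card, Fintype.card_subtype]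
    congr 1
    ext y
    simp [hev]
  have hdeg : Pb.totalDegree ≤ P.totalDegree := Finset.sup_mono (MvPolynomial.support_map_subset _ _)
  rw [← hcard, Finset.card_univ, ← hq] at hsz
  have hqQ : (0 : ℚ≥0) < (q v : ℚ≥0) := by exact_mod_cast hqpos
  rw [div_le_div_iff₀ (pow_pos hqQ m) hqQ] at hsz
  have hN : Nat.card {y : Fin m → Kv v // val v y P = 0} * q v ≤ Pb.totalDegree * q v ^ m := by
    exact_mod_cast hsz
  have hN2 : Nat.card {y : Fin m → Kv v // val v y P = 0} * q v ≤ P.totalDegree * q v ^ m :=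
    hN.trans (Nat.mul_le_mul_right _ hdeg)
  exact_mod_cast hN2

end Pool.Agent.Helper31.TF
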