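import Pool.Agent.Helper24.TF.StF

set_option autoImplicit false

namespace Pool.Agent.Helper31.TF

open NumberField IsDedekindDomain Polynomial Filter Topology
open Pool.Agent.Helper95.TT Pool.Agent.Helper24.TF
open scoped Classical

private theorem sqf_F4 (K : Type) [Field K] : ∀ (n : ℕ) (E : K[X]), E.natDegree ≤ n → E ≠ 0 →
    ∃ P Q : K[X], E = P * Q ^ 2 ∧ Squarefree P := by
  intro n
  induction n with
  | zero =>
    intro E hn hE
    refine ⟨E, 1, by simp, ?_⟩
    have hu : IsUnit E := by
      rw [Polynomial.isUnit_iff_degree_eq_zero]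
      rw [Polynomial.degree_eq_natDegree hE]
      have : E.natDegree = 0 := by omega
      rw [this]; rfl
    exact hu.squarefree
  | succ n ih =>
    intro E hn hE
    by_cases hs : Squarefree E
    · exact ⟨E, 1, by simp, hs⟩
    · unfold Squarefree at hs
      push Not at hs
      obtain ⟨x, ⟨c, hc⟩, hx⟩ := hs
      have hx0 : x ≠ 0 := by
        rintro rfl
        apply hE
        rw [hc]; ring
      have hc0 : c ≠ 0 := by
        rintro rfl
        apply hE
        rw [hc]; ring
      have hxd : 0 < x.natDegree := by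
        rcases Nat.eq_zero_or_pos x.natDegree with h0 | h0
        · exfalso
          apply hx
          rw [Polynomial.isUnit_iff_degree_eq_zero, Polynomial.degree_eq_natDegree hx0, h0]
          rfl
        · exact h0
      have hdeg : E.natDegree = x.natDegree + x.natDegree + c.natDegree := by
        rw [hc, Polynomial.natDegree_mul (mul_ne_zero hx0 hx0) hc0, Polynomial.natDegree_mul hx0 hx0]
      obtain ⟨P, Q, h1, h2⟩ := ih c (by omega) hc0
      exact ⟨P, x * Q, by rw [hc, h1]; ring, h2⟩

theorem hF4 : StF4 := by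
  intro k _ _ m E hE
  have hinj : Function.Injective (algebraMap (Py k m) (Ky k m)) := IsFractionRing.injective _ _
  have hinjX : Function.Injective (Polynomial.map (algebraMap (Py k m) (Ky k m))) :=
    Polynomial.map_injective _ hinj
  have : CharZero (Ky k m) := charZero_of_injective_algebraMap hinj
  have hE' : E.map (algebraMap (Py k m) (Ky k m)) ≠ 0 := by
    intro h
    exact hE (hinjX (by rw [h, Polynomial.map_zero]))
  obtain ⟨P1, Q1, h1, h2⟩ := sqf_F4 (Ky k m) _ _ le_rfl hE'
  obtain ⟨α, hα, hP0⟩ := IsLocalization.integerNormalization_spec (nonZeroDivisors (Py k m)) P1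
  obtain ⟨β, hβ, hQ0⟩ := IsLocalization.integerNormalization_spec (nonZeroDivisors (Py k m)) Q1
  set P0 := IsLocalization.integerNormalization (nonZeroDivisors (Py k m)) P1
  set Q0 := IsLocalization.integerNormalization (nonZeroDivisors (Py k m)) Q1
  have hα0 : α ≠ 0 := nonZeroDivisors.ne_zero hα
  have hβ0 : β ≠ 0 := nonZeroDivisors.ne_zero hβ
  have hP1 : P1 ≠ 0 := by
    rintro rfl
    exact hE' (by rw [h1]; ring)
  have hQ1 : Q1 ≠ 0 := by
    rintro rfl
    exact hE' (by rw [h1]; ring)
  have hsm : ∀ (a : Py k m) (p : (Ky k m)[X]), a • p = C (algebraMap (Py k m) (Ky k m) a) * p := by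
    intro a p
    rw [← IsScalarTower.algebraMap_smul (Ky k m) a p, Polynomial.smul_eq_C_mul]
  rw [hsm] at hP0 hQ0
  have hια : algebraMap (Py k m) (Ky k m) α ≠ 0 := by
    intro h; exact hα0 (hinj (by rw [h, map_zero]))
  have hιβ : algebraMap (Py k m) (Ky k m) β ≠ 0 := by
    intro h; exact hβ0 (hinj (by rw [h, map_zero]))
  have hP0n : P0 ≠ 0 := by
    intro h
    rw [h, Polynomial.map_zero] at hP0
    exact mul_ne_zero (Polynomial.C_ne_zero.2 hια) hP1 hP0.symm
  have hQ0n : Q0 ≠ 0 := by
    intro h
    rw [h, Polynomial.map_zero] at hQ0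
    exact mul_ne_zero (Polynomial.C_ne_zero.2 hιβ) hQ1 hQ0.symm
  refine ⟨α * β, C α * P0, Q0, mul_ne_zero hα0 hβ0, mul_ne_zero (Polynomial.C_ne_zero.2 hα0) hP0n,
    hQ0n, ?_, ?_⟩
  · apply hinjX
    simp only [Polynomial.map_mul, Polynomial.map_pow, Polynomial.map_C, hP0, hQ0, h1, map_mul]
    ring
  · have e1 : (C α * P0).map (algebraMap (Py k m) (Ky k m)) =
        C (algebraMap (Py k m) (Ky k m) α * algebraMap (Py k m) (Ky k m) α) * P1 := by
      simp only [Polynomial.map_mul, Polynomial.map_C, hP0, map_mul]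
      ring
    rw [e1]
    exact (PerfectField.separable_iff_squarefree.2 h2).unit_mul
      (Polynomial.isUnit_C.2 (IsUnit.mk0 _ (mul_ne_zero hια hια)))

end Pool.Agent.Helper31.TF
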