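import Pool.Agent.Helper24.TF.StF

set_option autoImplicit false

namespace Pool.Agent.Helper31.TF

open NumberField IsDedekindDomain Polynomial Filter Topology
open Pool.Agent.Helper95.TT Pool.Agent.Helper24.TF
open scoped Classical

private theorem fin_F6 {k : Type} [Field k] [NumberField k] (v : Pr k) : Finite (Kv v) :=
  Ideal.finiteQuotientOfFreeOfNeBot _ v.ne_bot

private theorem qcard_F6 {k : Type} [Field k] [NumberField k] (v : Pr k) : q v = Nat.card (Kv v) := by
  unfold q
  rw [Ideal.absNorm_apply, Submodule.cardQuot_apply]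

private theorem qpos_F6 {k : Type} [Field k] [NumberField k] (v : Pr k) : 0 < q v := by
  have := fin_F6 v
  rw [qcard_F6]
  exact Nat.card_pos

private theorem q1_F6 {k : Type} [Field k] [NumberField k] (v : Pr k) : (1 : ℝ) ≤ (q v : ℝ) := by
  exact_mod_cast qpos_F6 v

private theorem wt_nonneg_F6 {k : Type} [Field k] [NumberField k] (s : ℝ) (v : Pr k) :
    0 ≤ wt s v :=
  mul_nonneg (Real.log_natCast_nonneg _) (Real.rpow_nonneg (Nat.cast_nonneg _) _)

private theorem wt_anti_F6 {k : Type} [Field k] [NumberField k] {s t : ℝ} (h : s ≤ t) (v : Pr k) :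
    wt t v ≤ wt s v :=
  mul_le_mul_of_nonneg_left (Real.rpow_le_rpow_of_exponent_le (q1_F6 v) (by linarith))
    (Real.log_natCast_nonneg _)

private theorem sum_F6 (hA2 : StA2) {k : Type} [Field k] [NumberField k] (a : Pr k → ℝ) (B : ℝ)
    (hB : ∀ v, |a v| ≤ B) (s : ℝ) (hs : 1 < s) : Summable (fun v => a v * wt s v) := by
  refine Summable.of_norm_bounded (g := fun v => B * wt s v) (((hA2 k).1 s hs).mul_left B) ?_
  intro v
  rw [Real.norm_eq_abs, abs_mul, abs_of_nonneg (wt_nonneg_F6 s v)]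
  exact mul_le_mul_of_nonneg_right (hB v) (wt_nonneg_F6 s v)

private theorem small_F6 (hA2 : StA2) {k : Type} [Field k] [NumberField k] (a : Pr k → ℝ) (B C : ℝ)
    (R : Set (Pr k)) (hR : R.Finite) (hB : ∀ v, |a v| ≤ B)
    (hC : ∀ v, v ∉ R → |a v| * √(q v) ≤ C) :
    Tendsto (fun s : ℝ => (s - 1) * ∑' v : Pr k, a v * wt s v) (𝓝[>] 1) (𝓝 0) := by
  have hB0 : 0 ≤ B ∨ IsEmpty (Pr k) := by
    by_cases h : Nonempty (Pr k)
    · obtain ⟨v⟩ := h
      exact Or.inl ((abs_nonneg _).trans (hB v))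
    · exact Or.inr (not_nonempty_iff.1 h)
  set g : Pr k → ℝ := fun v => |C| * wt (3 / 2) v + (if v ∈ R then |B| * wt 1 v else 0) with hg
  have hgs : Summable g := by
    apply Summable.add
    · exact ((hA2 k).1 (3 / 2) (by norm_num)).mul_left _
    · apply summable_of_finite_support
      apply hR.subset
      intro v hv
      by_contra hc
      simp [hc] at hv
  have hbd : ∀ s : ℝ, 1 ≤ s → ∀ v, ‖a v * wt s v‖ ≤ g v := by
    intro s hs v
    rw [Real.norm_eq_abs, abs_mul, abs_of_nonneg (wt_nonneg_F6 s v)]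
    by_cases hv : v ∈ R
    · have h1 : |a v| * wt s v ≤ |B| * wt 1 v :=
        mul_le_mul ((hB v).trans (le_abs_self _)) (wt_anti_F6 hs v) (wt_nonneg_F6 s v) (abs_nonneg _)
      have h2 : 0 ≤ |C| * wt (3 / 2) v := mul_nonneg (abs_nonneg _) (wt_nonneg_F6 _ v)
      simp only [hg, hv, if_true]
      linarith
    · simp only [hg, hv, if_false, add_zero]
      have hq := q1_F6 v
      have hq0 : (0 : ℝ) < q v := by linarith
      have h1 : wt s v ≤ wt 1 v := wt_anti_F6 hs v
      have h2 : wt 1 v = √(q v) * wt (3 / 2) v := by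
        unfold wt
        rw [Real.sqrt_eq_rpow, mul_left_comm, ← Real.rpow_add hq0]
        norm_num
      calc |a v| * wt s v ≤ |a v| * wt 1 v := mul_le_mul_of_nonneg_left h1 (abs_nonneg _)
        _ = (|a v| * √(q v)) * wt (3 / 2) v := by rw [h2]; ring
        _ ≤ |C| * wt (3 / 2) v :=
          mul_le_mul_of_nonneg_right ((hC v hv).trans (le_abs_self _)) (wt_nonneg_F6 _ v)
  have hle : ∀ s : ℝ, 1 < s → ‖(s - 1) * ∑' v : Pr k, a v * wt s v‖ ≤ (s - 1) * ∑' v, g v := by
    intro s hs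
    rw [norm_mul, Real.norm_eq_abs (s - 1), abs_of_pos (by linarith : (0 : ℝ) < s - 1)]
    exact mul_le_mul_of_nonneg_left (tsum_of_norm_bounded hgs.hasSum (hbd s hs.le)) (by linarith)
  have hlim : Tendsto (fun s : ℝ => (s - 1) * ∑' v, g v) (𝓝[>] 1) (𝓝 0) := by
    have h1 : Tendsto (fun s : ℝ => (s - 1) * ∑' v, g v) (𝓝 1) (𝓝 ((1 - 1) * ∑' v, g v)) :=
      ((continuous_id.sub continuous_const).mul continuous_const).tendsto 1
    rw [sub_self, zero_mul] at h1
    exact h1.mono_left nhdsWithin_le_nhds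
  exact squeeze_zero_norm' (eventually_nhdsWithin_of_forall (fun s hs => hle s hs)) hlim

private theorem trans_F6 (hA2 : StA2) {k : Type} [Field k] [NumberField k] (a b : Pr k → ℝ)
    (C : ℝ) (R : Set (Pr k)) (hR : R.Finite) (ha : ∀ v, |a v| ≤ 1) (hb : ∀ v, |b v| ≤ 1)
    (hC : ∀ v, v ∉ R → |a v - b v| * √(q v) ≤ C)
    (hlim : Tendsto (fun s : ℝ => (s - 1) * ∑' v : Pr k, b v * wt s v) (𝓝[>] 1) (𝓝 0)) :
    Tendsto (fun s : ℝ => (s - 1) * ∑' v : Pr k, a v * wt s v) (𝓝[>] 1) (𝓝 0) := by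
  have h1 := small_F6 hA2 (fun v => a v - b v) 2 C R hR
    (fun v => (abs_sub _ _).trans (by linarith [ha v, hb v])) hC
  have h2 := h1.add hlim
  rw [add_zero] at h2
  refine h2.congr' ?_
  refine eventually_nhdsWithin_of_forall (fun s hs => ?_)
  have hs' : 1 < s := hs
  have e1 := sum_F6 hA2 (fun v => a v - b v) 2
    (fun v => (abs_sub _ _).trans (by linarith [ha v, hb v])) s hs'
  have e2 := sum_F6 hA2 b 1 hb s hs'
  beta_reduce
  rw [← mul_add, ← e1.tsum_add e2]
  congr 1
  apply tsum_congr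
  intro v
  ring

private theorem chF_le_F6 {k : Type} [Field k] [NumberField k] (v : Pr k) (x : Kv v) :
    |chF v x| ≤ 1 := by
  unfold chF
  split_ifs <;> norm_num

private theorem av_le_F6 {k : Type} [Field k] [NumberField k] {m : ℕ} (E : Py k m) (v : Pr k) :
    |av E v| ≤ 1 := by
  have := fin_F6 v
  have : Fintype (Kv v) := Fintype.ofFinite _
  unfold av
  rw [abs_div, abs_of_nonneg (by positivity : (0 : ℝ) ≤ (q v : ℝ) ^ m)]
  have hq : (0 : ℝ) < (q v : ℝ) ^ m := pow_pos (by exact_mod_cast qpos_F6 v) m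
  rw [div_le_one hq, finsum_eq_sum_of_fintype]
  calc |∑ y : Fin m → Kv v, chF v (val v y E)| ≤ ∑ y : Fin m → Kv v, |chF v (val v y E)| :=
        Finset.abs_sum_le_sum_abs _ _
    _ ≤ ∑ _y : Fin m → Kv v, (1 : ℝ) := Finset.sum_le_sum (fun y _ => chF_le_F6 v _)
    _ = (q v : ℝ) ^ m := by
        rw [Finset.sum_const, nsmul_eq_mul, mul_one, Finset.card_univ, Fintype.card_fun,
          Fintype.card_fin, qcard_F6, Nat.card_eq_fintype_card]
        push_cast
        rfl

private theorem chi_le_F6 {k : Type} [Field k] [NumberField k] (D : 𝓞 k) (v : Pr k) :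
    |chi D v| ≤ 1 := by
  unfold chi
  split_ifs <;> norm_num

private theorem two_fin_F6 (k : Type) [Field k] [NumberField k] :
    {v : Pr k | (2 : 𝓞 k) ∈ v.asIdeal}.Finite := by
  have h2 : Ideal.span {(2 : 𝓞 k)} ≠ 0 := by
    rw [Ideal.zero_eq_bot, Ne, Ideal.span_singleton_eq_bot]
    exact two_ne_zero
  refine (Ideal.finite_factors h2).subset ?_
  intro v hv
  simp only [Set.mem_setOf_eq] at hv ⊢
  rw [Ideal.dvd_span_singleton]
  exact hv

theorem hF6 (hA2 : StA2) (hA4 : StA4) (hF3 : StF3) (hF5 : StF5) : StF6 := by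
  intro k _ _ m
  induction m with
  | zero =>
    intro E hE hsq
    set a : 𝓞 k := MvPolynomial.coeff 0 E with ha
    have hEa : E = MvPolynomial.C a := MvPolynomial.eq_C_of_isEmpty E
    have hna : ¬ IsSquare (algebraMap (𝓞 k) k a) := by
      rintro ⟨x, hx⟩
      apply hsq
      have hint : IsIntegral (𝓞 k) (x ^ 2) := by
        rw [pow_two, ← hx]
        exact isIntegral_algebraMap
      obtain ⟨b, hb⟩ := IsIntegrallyClosed.exists_algebraMap_eq_of_isIntegral_pow
        (R := 𝓞 k) (K := k) (n := 2) (by norm_num) hint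
      have hab : a = b * b := by
        apply FaithfulSMul.algebraMap_injective (𝓞 k) k
        rw [hx, map_mul, hb]
      refine ⟨algebraMap (Py k 0) (Ky k 0) (MvPolynomial.C b), ?_⟩
      rw [hEa, hab, ← map_mul, ← map_mul]
    refine trans_F6 hA2 (fun v => av E v) (fun v => chi a v) 0 _ (two_fin_F6 k)
      (fun v => av_le_F6 E v) (fun v => chi_le_F6 a v) ?_ (hA4 k a hna)
    intro v hv
    have hav : av E v = chi a v := by
      rw [← (hF3 k v hv).2.2.2.2 a]
      unfold av
      have := fin_F6 v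
      have : Fintype (Kv v) := Fintype.ofFinite _
      rw [finsum_eq_sum_of_fintype, pow_zero, div_one]
      rw [Fintype.sum_eq_single (default : Fin 0 → Kv v) (fun y hy => absurd (Subsingleton.elim _ _) hy)]
      congr 1
      rw [hEa]
      simp [val]
    rw [hav]
    simp
  | succ m ih =>
    intro E hE hsq
    obtain ⟨C, R, hR, h | ⟨e, he, hesq, h⟩⟩ := hF5 k m E hE hsq
    · exact small_F6 hA2 _ 1 C R hR (fun v => av_le_F6 E v) h
    · refine trans_F6 hA2 (fun v => av E v) (fun v => av e v) C R hR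
        (fun v => av_le_F6 E v) (fun v => av_le_F6 e v) ?_ (ih e he hesq)
      intro v hv
      refine le_trans (mul_le_mul_of_nonneg_left ?_ (abs_nonneg _)) (h v hv)
      rw [Real.sqrt_le_left (by positivity)]
      have := q1_F6 v
      nlinarith

end Pool.Agent.Helper31.TF
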